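import Mathlib
import Pool.Agent.Lib_helper94.XO.Defs
import Pool.Agent.Lib_helper94.XO.Defs2

/-!
# Functions on finite abelian groups: the analogue of `XO` for all finite abelian groups
(MP_e5d384_lc): definitions

`V` is the dual group. General facts about laws are in `Pool.Agent.XO`.
-/

set_option autoImplicit false

namespace Pool.Agent.XA

open Finset Filter Pool.Agent.XO

section World

variable {V : Type} [AddCommGroup V] [Fintype V] [DecidableEq V]

/-- strong spread: few elements of the support become congruent modulo a small subgroup -/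
def ASpread (p : V → ℝ) (s κ κ' : ℝ) : Prop :=
  ∀ U : AddSubgroup V, Real.log (Nat.card U) ≤ s ^ κ →
    ∃ Lt : Finset V, (∀ c c', p c ≠ 0 → p c' ≠ 0 → c ≠ c' → c - c' ∈ U → c ∈ Lt ∨ c' ∈ Lt) ∧
      ∑ c ∈ Lt, p c ≤ s ^ (-κ')

/-- the hypotheses of Part I -/
structure APWorld (p : V → ℝ) (s κ κ' : ℝ) : Prop where
  law : IsLaw p
  card : ((univ.filter fun c => p c ≠ 0).card : ℝ) ≤ s
  spread : ASpread p s κ κ'
  ord : ∀ c, p c ≠ 0 → (addOrderOf c : ℝ) ≤ s ^ (3 : ℕ)

/-- the hypotheses of the main theorem: `p = |F| / L`, `e = F / |F|`, where `F * F = δ₀` -/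
structure AWorld (p : V → ℝ) (e : V → ℂ) (s κ κ' κ2 : ℝ) : Prop
    extends APWorld p s κ κ' where
  unit : ∀ c, ‖e c‖ = 1
  bal : ∀ g, g ≠ 0 → ∑ c, ((p c * p (g - c) : ℝ) : ℂ) * (e c * e (g - c)) = 0
  small : ∀ c, p c ≤ s ^ (-κ2)

/-- `z` is far from `w` (for `|z| = |w| = 1`: the angle is at least 60 degrees) -/
def Far (z w : ℂ) : Prop := (z * (starRingEnd ℂ) w).re ≤ 1 / 2

/-- `σ` chooses a heaviest pair with the same sum and a product of phases which is far -/
def AGate (p : V → ℝ) (e : V → ℂ) (σ : V → V → V × V) : Prop :=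
  ∀ a b, p a ≠ 0 → p b ≠ 0 → a + b ≠ 0 →
    (σ a b).1 + (σ a b).2 = a + b ∧ 0 < p (σ a b).1 * p (σ a b).2 ∧
    Far (e (σ a b).1 * e (σ a b).2) (e a * e b) ∧
    ∀ x y, x + y = a + b → Far (e x * e y) (e a * e b) → p x * p y ≤ p (σ a b).1 * p (σ a b).2

/-- all pairs with the same sum as `(a, b)` and a product of phases far from that of `(a, b)` are
lighter than `v` -/
def ALight (p : V → ℝ) (e : V → ℂ) (v : ℝ) (a b : V) : Prop :=
  a + b ≠ 0 ∧ ∀ x y, x + y = a + b → Far (e x * e y) (e a * e b) → p x * p y < v * cp p 2 (a + b)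

/-- signed sums of `m` elements of `A ∪ {0}` -/
noncomputable def AGs (A : Finset V) (m : ℕ) : Finset V :=
  (Fintype.piFinset fun _ : Fin m => insert 0 (A ∪ A.image fun a => -a)).image fun f => ∑ i, f i

/-- a tuple `y` outside all bad events; `K` is the support map, `Hb` the set of hubs -/
structure ASel (p : V → ℝ) (σ : V → V → V × V) {n M : ℕ} (Λ M₀ G : ℕ) (v : ℝ)
    (K : V → Finset (Fin n)) (Hb : Finset (Fin n)) (y : Fin M → V) : Prop where
  ok : M₀ ≤ (univ.filter fun a => (K (y a)).card ≤ Λ).card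
  reach : ∀ g ≤ G, ∀ c, Reach σ y g c → Eff p v (∑ i, y i) c ∧ ∀ a b, a ≠ b → c a + c b ≠ 0
  cons : ∀ c c' : Fin M → V, Eff p v (∑ i, y i) c → Eff p v (∑ i, y i) c' →
    (univ.biUnion fun a => K (c a)) = univ.biUnion fun a => K (c' a)
  disj : ∀ c : Fin M → V, Eff p v (∑ i, y i) c → ∀ a b, a ≠ b →
    Disjoint (K (c a) \ Hb) (K (c b) \ Hb)
  uniq : ∀ c c' : Fin M → V, Eff p v (∑ i, y i) c → Eff p v (∑ i, y i) c' → ∀ a a',
    K (c a) \ Hb = K (c' a') \ Hb → c a = c' a'

end World

section Act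

/-- a system of conserved atoms; `e` colours the elements, a gate never produces two elements of
the common colour of its two inputs -/
structure CACT {S : Type} {M k : ℕ} (Λ G : ℕ) (e : S → Fin k) (σ : S → S → S × S)
    (K : S → Finset ℕ) (y : Fin M → S) : Prop where
  disj : ∀ g ≤ G, ∀ c, Reach σ y g c → ∀ a b, a ≠ b → Disjoint (K (c a)) (K (c b))
  cons : ∀ g ≤ G, ∀ c, Reach σ y g c →
    (univ.biUnion fun a => K (c a)) = univ.biUnion fun a => K (y a)
  flip : ∀ g ≤ G, ∀ c, Reach σ y g c → ∀ a b, a ≠ b →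
    ¬ (e (c b) = e (c a) ∧ e (σ (c a) (c b)).1 = e (c a) ∧ e (σ (c a) (c b)).2 = e (c a))
  uniq : ∀ g ≤ G, ∀ g' ≤ G, ∀ c c', Reach σ y g c → Reach σ y g' c' → ∀ a a',
    K (c a) = K (c' a') → e (c a) = e (c' a')
  card : ∀ a, (K (y a)).card ≤ Λ

end Act

section Kill

variable {V : Type} [AddCommGroup V] [Fintype V] [DecidableEq V]

/-- the Fourier transform (on the dual group `V`) of a function with the values `1`, `-1` -/
structure BF (F : V → ℂ) : Prop where
  conv : ∀ g, ∑ c, F c * F (g - c) = if g = 0 then 1 else 0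
  conj : ∀ c, F (-c) = (starRingEnd ℂ) (F c)

open Classical in
/-- the support -/
noncomputable def spt (F : V → ℂ) : Finset V := univ.filter fun c => F c ≠ 0

/-- the spectral norm -/
noncomputable def L1 (F : V → ℂ) : ℝ := ∑ c, ‖F c‖

/-- the value of the function at the point `ξ` (the points are the characters of `V`) -/
noncomputable def ev (F : V → ℂ) (ξ : AddChar V ℂ) : ℂ := ∑ c, F c * ξ c

/-- the Fourier transform of the restriction to the coset of `ξ` -/
noncomputable def push {W : Type} [AddCommGroup W] [DecidableEq W] (π : V →+ W) (F : V → ℂ)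
    (ξ : AddChar V ℂ) (q : W) : ℂ := ∑ c, if π c = q then F c * ξ c else 0

open Classical in
/-- the function is constant on the coset of some point `ξ` given by the values of the characters
in `T` -/
def Kills (F : V → ℂ) (T : Finset V) : Prop :=
  ∃ ξ : AddChar V ℂ, ∀ q, q ∉ AddSubgroup.closure (T : Set V) →
    ∑ c, (if c - q ∈ AddSubgroup.closure (T : Set V) then F c * ξ c else 0) = 0

/-- `T` consists of elements of the support and of differences of two such elements -/
def Dif (F : V → ℂ) (T : Finset V) : Prop :=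
  ∀ g ∈ T, F g ≠ 0 ∨ ∃ c c', F c ≠ 0 ∧ F c' ≠ 0 ∧ g = c - c'

end Kill

/-- the main theorem -/
def NoAWorld : Prop := ∀ κ κ' κ2 : ℝ, 0 < κ → 0 < κ' → 0 < κ2 →
  ∀ᶠ s : ℝ in atTop, ∀ (V : Type) [AddCommGroup V] [Fintype V] [DecidableEq V] (p : V → ℝ)
    (e : V → ℂ), ¬ AWorld p e s κ κ' κ2

end Pool.Agent.XA
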